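import Pool.Agent.Helper81.PW.Defs

/-!
Project PX (MP_b8862a_ag): the set of the dimensions of the non-standard irreducible self-dual representations is thin.
Definitions. Paper: /team-store/h81_PX_paper.md
-/

set_option linter.unusedSectionVars false

open Module PF TF PW

namespace PX

/-- At most `C X^(1/2+ε)` elements up to `X`, for every `ε > 0`. -/
def Thin (S : Set ℕ) : Prop := ∀ ε : ℝ, 0 < ε → ∃ C : ℝ, ∀ X : ℕ, (cn S X : ℝ) ≤ C * (X : ℝ) ^ (1 / 2 + ε)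

/-- At most `C X^(1/2)` elements up to `X`. -/
def Half (S : Set ℕ) : Prop := ∃ C : ℝ, ∀ X : ℕ, (cn S X : ℝ) ≤ C * (X : ℝ) ^ (1 / 2 : ℝ)

/-- The arithmetic datum of Weyl's dimension formula, see `PW.Dt`: there are different non simple coroots `t j` which
contain the simple ones, or all the `b j` are equal. -/
def Dt2 (M n : ℕ) : Prop := ∃ (r N : ℕ) (f : Fin N → Fin r → ℕ) (b : Fin r → ℕ) (s : Fin r → Fin N),
  2 ≤ r ∧ r ≤ M ∧ N ≤ M ∧ (∀ a j, f a j ≤ 4 * M) ∧ (∀ a, 0 < ∑ j, f a j) ∧ (∀ j, 0 < b j) ∧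
  Function.Injective s ∧ (∀ j i, f (s j) i = if i = j then 1 else 0) ∧
  ((∃ t : Fin r → Fin N, Function.Injective t ∧ (∀ i j, s i ≠ t j) ∧ ∀ j, 1 ≤ f (t j) j) ∨ ∀ i j, b i = b j) ∧
  n * ∏ a, ∑ j, f a j = ∏ a, ∑ j, f a j * b j

/-- Weyl's product, types `B`, `C`, `D`, `y` twice the coordinates of the highest weight. -/
def Py (d m : ℕ) (y : Fin m → ℤ) : ℤ :=
  (∏ i, ∏ j ∈ Finset.Ioi i, ((y i + Vd d m i) ^ 2 - (y j + Vd d m j) ^ 2)) *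
    (if d = 0 then 1 else ∏ i, (y i + Vd d m i))

/-- The exponents. -/
def gg (m l : ℕ) : ℕ := max 2 (min (l + 1) (m - 1 - l) / 4)

/-- The dimensions for `B_m`, `C_m`, `D_m`. -/
def AllD (d m : ℕ) : Set ℕ := {n | ∃ y : Fin m → ℤ, (∀ i j, i < j → |y j| ≤ y i) ∧ (∀ i j, (2 : ℤ) ∣ y i - y j) ∧
  n * Py d m 0 = Py d m y ∧ Py d m 0 ≠ 0}

/-- The dimensions for `A_(m-1)`. -/
def AllA (m : ℕ) : Set ℕ := {n | ∃ z : Fin m → ℤ, (∀ i j, i < j → z j ≤ z i) ∧ (∀ i : Fin m, (i : ℕ) + 1 = m → z i = 0) ∧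
  n * Pa m 0 = Pa m z ∧ Pa m 0 ≠ 0}

/-- The dimensions with many boxes. -/
def Big (R D : ℕ) : Set ℕ := {n | ∃ m, R ≤ m ∧ m ^ 4 ≤ D * n ∧ (n ∈ AllA m ∨ ∃ d, d ≤ 2 ∧ n ∈ AllD d m)}

section euclid

variable {E : Type*} [NormedAddCommGroup E] [InnerProductSpace ℝ E]

/-- The data `PW.Wd` with the finer arithmetic datum. -/
structure Wd2 (Φ X : Finset E) (n : ℕ) (l v : E) : Prop extends Wd Φ X n l v where
  dt2 : ¬ TypeA Φ → Dt2 Φ.card n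

end euclid

/-- The exceptional dimensions. -/
def Ex2 : Set ℕ := {n | ∃ (ι : Type) (_ : Fintype ι) (Φ X : Finset (EuclideanSpace ℝ ι)) (l v : EuclideanSpace ℝ ι),
  Wd2 Φ X n l v ∧ ¬ TypeA Φ ∧ ¬ TypeB Φ X ∧ ¬ TypeD Φ X}

end PX
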