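import Pool.Agent.Helper81.PW.LargeA

/-!
Project PX (MP_b8862a_ag): many boxes or few boxes.
-/

set_option linter.unusedSectionVars false

open Module PF TF PW

namespace PX

/-- **Types `B`, `C`, `D` of large rank.** -/
theorem dich_fr (K : ℕ) (hK : 2 ≤ K) : ∃ R D : ℕ, ∀ {E : Type*} [NormedAddCommGroup E] [InnerProductSpace ℝ E]
    {Φ X : Finset E} {m n : ℕ} {l v : E} {e : Fin m → E} {c : ℝ} {d : ℕ}, Wd Φ X n l v → Fr Φ m e c d → R ≤ m →
    TypeB Φ X ∨ TypeD Φ X ∨ m ^ K ≤ D * n ∨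
      (m ^ 2 ≤ 4 * n ∧ ∃ k : Fin m → ℤ, (∀ i, (inner ℝ l (e i) : ℝ) = c * k i) ∧ ∑ i, |k i| < K) := by
  refine ⟨4 * K + 5, 4 ^ K * (2 * K).factorial, ?_⟩
  intro E _ _ Φ X m n l v e c d h F hm
  have hbig : ∀ r, K ≤ r → r ≤ 2 * K → m.choose r ≤ X.card → m ^ K ≤ 4 ^ K * (2 * K).factorial * n := by
    intro r h1 h2 h3
    exact many (by omega) (by omega) h1 h2 (h3.trans h.card_le)
  by_cases hS : m ^ K ≤ 4 ^ K * (2 * K).factorial * n
  · exact Or.inr (Or.inr (Or.inl hS))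
  have hsm : ∀ x ∈ X, ∃ z : Fin m → ℤ, (∀ i, cx e c x i = z i) ∧ ∑ i, |z i| < K := by
    intro x hx
    rcases F.int_or h.sat (by omega) hx with ⟨z, hz⟩ | ⟨z, hz⟩
    · refine ⟨z, hz, ?_⟩
      by_contra h3
      push Not at h3
      rcases choose_int F h.sat (by omega) hx z hz h3 with h4 | h4
      · exact hS (hbig K le_rfl (by omega) h4)
      · exact hS (hbig (K + 1) (by omega) (by omega) h4)
    · exfalso
      refine hS (hbig (2 * K) (by omega) le_rfl (choose_half F h.sat hx (fun i h => ?_) (by omega)))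
      rw [hz i] at h
      have h1 : (2 * z i + 1 : ℤ) = 0 := by
        have : ((2 * z i + 1 : ℤ) : ℝ) = 0 := by push_cast; linarith
        exact_mod_cast this
      omega
  by_cases hone : ∀ x ∈ X, ∃ z : Fin m → ℤ, (∀ i, cx e c x i = z i) ∧ ∑ i, |z i| ≤ 1
  · rcases standard F h.sat (by omega) h.l_mem h.l_ne hone with h1 | h1
    · exact Or.inl h1
    · exact Or.inr (Or.inl h1)
  refine Or.inr (Or.inr (Or.inr ⟨?_, ?_⟩))
  · push Not at hone
    obtain ⟨x, hx, hx2⟩ := hone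
    obtain ⟨z, hz, _⟩ := hsm x hx
    have h2 := hx2 z hz
    have hch : m.choose 2 ≤ n := by
      rcases choose_int F h.sat (K := 2) (by omega) hx z hz (by push_cast; omega) with h4 | h4
      · exact h4.trans h.card_le
      · refine le_trans ?_ (h4.trans h.card_le)
        have h1 := Nat.choose_succ_right_eq m 2
        have h2 : 3 ≤ m - 2 := by omega
        nlinarith
    have h3 := choose_two m
    obtain ⟨t, rfl⟩ : ∃ t, m = t + 2 := ⟨m - 2, by omega⟩
    have h4 : t + 2 - 1 = t + 1 := by omega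
    rw [h4] at h3
    nlinarith
  · obtain ⟨z, hz, hz2⟩ := hsm l h.l_mem
    refine ⟨z, fun i => ?_, hz2⟩
    have h1 := hz i
    unfold cx at h1
    rw [div_eq_iff F.pos.ne'] at h1
    rw [h1]; ring

/-- **Type `A` of large rank.** -/
theorem dich_frA (K : ℕ) (hK : 2 ≤ K) : ∃ R D : ℕ, ∀ {E : Type*} [NormedAddCommGroup E] [InnerProductSpace ℝ E]
    {Φ X : Finset E} {m n : ℕ} {l v : E} {u : Fin m → E}, Wd Φ X n l v → FrA Φ m u → R ≤ m →
    m ^ K ≤ D * n ∨
      (m ^ 2 ≤ 4 * n ∧ ∃ k : Fin m → ℤ, (∀ i, (inner ℝ l (u i) : ℝ) = k i) ∧ ∑ i, |k i| < 2 * K) := by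
  refine ⟨4 * K + 5, 4 ^ K * (2 * K).factorial, ?_⟩
  intro E _ _ Φ X m n l v u h F hm
  have hbig : ∀ r, K ≤ r → r ≤ 2 * K → m.choose r ≤ X.card → m ^ K ≤ 4 ^ K * (2 * K).factorial * n := by
    intro r h1 h2 h3
    exact many (by omega) (by omega) h1 h2 (h3.trans h.card_le)
  by_cases hS : m ^ K ≤ 4 ^ K * (2 * K).factorial * n
  · exact Or.inl hS
  have hsm : ∀ x ∈ X, ∃ z : Fin m → ℤ, (∀ i, (inner ℝ x (u i) : ℝ) = z i) ∧ ∑ i, |z i| < 2 * K := by
    intro x hx
    rcases F.int_or h.sat (by omega) hx with ⟨z, hz⟩ | hz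
    · refine ⟨z, hz, ?_⟩
      by_contra h3
      push Not at h3
      exact hS (hbig (2 * K) (by omega) le_rfl (choose_intA F h.sat (by omega) hx z hz h3))
    · exfalso
      exact hS (hbig K le_rfl (by omega) ((Nat.choose_le_middle K m).trans (F.choose_of_half h.sat (by omega) hx hz)))
  obtain ⟨z, hz, hz2⟩ := hsm l h.l_mem
  refine Or.inr ⟨?_, z, hz, hz2⟩
  have h2 : (2 : ℤ) ≤ ∑ i, |z i| := by
    by_contra hcon
    push Not at hcon
    have hlsp := Sat.span27 h.sat h.l_mem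
    have hz0 : ∑ i, z i = 0 := by
      have h1 := F.sum_ax (by omega) l
      simp only [hz] at h1
      exact_mod_cast h1
    rcases small_z (by omega : ∑ i, |z i| ≤ 2) with h0 | ⟨k, hk, hj⟩ | ⟨k, hk, hj⟩ | ⟨k, k', hkk, hk, hk', hj⟩
    · apply h.l_ne
      have : (inner ℝ l l : ℝ) = 0 := by
        rw [F.inner_eq hlsp]
        exact Finset.sum_eq_zero fun i _ => by rw [hz i, h0 i]; norm_num
      exact inner_self_eq_zero.1 this
    · rw [Finset.sum_eq_single k (fun i _ hi => hj i hi) (fun h => absurd (Finset.mem_univ k) h)] at hz0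
      rw [hz0] at hk
      norm_num at hk
    · rw [Finset.sum_eq_single k (fun i _ hi => hj i hi) (fun h => absurd (Finset.mem_univ k) h)] at hz0
      rw [hz0] at hk
      norm_num at hk
    · have h1 : |z k| + |z k'| ≤ ∑ i, |z i| := by
        rw [← Finset.add_sum_erase _ _ (Finset.mem_univ k),
          ← Finset.add_sum_erase _ _ (Finset.mem_erase.2 ⟨hkk.symm, Finset.mem_univ k'⟩)]
        have : 0 ≤ ∑ i ∈ (Finset.univ.erase k).erase k', |z i| := Finset.sum_nonneg fun k _ => abs_nonneg _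
        linarith
      omega
  have hch := (choose_intA F h.sat (K := 1) (by omega) h.l_mem z hz (by push_cast; omega)).trans h.card_le
  rw [mul_one] at hch
  have h3 := choose_two m
  obtain ⟨t, rfl⟩ : ∃ t, m = t + 2 := ⟨m - 2, by omega⟩
  have h4 : t + 2 - 1 = t + 1 := by omega
  rw [h4] at h3
  nlinarith

end PX
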