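import Pool.Agent.Helper3.PX.Dt3Main
import Pool.Agent.Helper80.PX.Big
import Pool.Agent.Helper94.PX.Half
import Pool.Agent.Helper43.PX.Dim
import Pool.Agent.Helper81.PX.Dich
import Pool.Agent.Helper81.PW.Main

/-!
Project PX (MP_b8862a_ag): the exceptional set has `O(√X)` elements up to `X`.
-/

set_option linter.unusedSectionVars false

open Module PF TF PW

namespace PX

theorem Dt3.mono {M M' n : ℕ} (h : Dt3 M n) (hM : M ≤ M') : Dt3 M' n := by
  obtain ⟨r, N, f, b, h1, h2, h3, h4, h5⟩ := h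
  exact ⟨r, N, f, b, h1, h2.trans hM, h3.trans hM, fun a j => (h4 a j).trans (by omega), h5⟩

/-- **The exceptional set.** -/
theorem ex3_half : Half Ex3 := by
  obtain ⟨R1, D1, h1⟩ := dich_fr.{0} 4 (by omega)
  obtain ⟨R2, D2, h2⟩ := dich_frA.{0} 4 (by omega)
  obtain ⟨R3, h3⟩ := big_half (D1 + D2)
  obtain ⟨M, hM⟩ := classical.{0} (R1 + R2 + R3 + 4)
  refine Half.mono (((dt3_half M).union h3).union ((fewD_half 4).union (fewA_half 8))) ?_
  rintro n hn ⟨ι, _, Φ, X, l, v, h, hA, hB, hD⟩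
  by_cases hcard : Φ.card < M
  · exact Or.inl (Or.inl ((h.dt3 hA).mono hcard.le))
  · push Not at hcard
    obtain ⟨c, hc, hNRS⟩ := exists_NRS h.rs
    have h' := h.toWd.sc hc
    obtain ⟨m, hm, hF⟩ := hM (PF.sc c Φ) hNRS (by rw [card_sc hc]; exact hcard)
    rcases hF with ⟨u, hu⟩ | ⟨e, c', d, he⟩
    · rcases h2 h' hu (by omega) with h3 | ⟨h3, k, hk, hk2⟩
      · refine Or.inl (Or.inr ⟨m, by omega, h3.trans (Nat.mul_le_mul_right _ (by omega)), Or.inl ?_⟩)
        exact dim_allA h' hu (by omega)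
      · obtain ⟨x, hx1, hx2, hx3, hx4⟩ := dim_frA h' hu (by omega) hk
        exact Or.inr (Or.inr ⟨m, x, h3, by rw [hx1]; exact_mod_cast hk2, hx2, hx3, hx4⟩)
    · rcases h1 h' he (by omega) with h3 | h3 | h3 | ⟨h3, k, hk, hk2⟩
      · exact absurd (h3.of_sc hc) hB
      · exact absurd (h3.of_sc hc) hD
      · refine Or.inl (Or.inr ⟨m, by omega, h3.trans (Nat.mul_le_mul_right _ (by omega)), Or.inr ⟨d, he.le, ?_⟩⟩)
        exact dim_all h' he (by omega)
      · obtain ⟨x, hx1, hx2, hx3, hx4⟩ := dim_fr h' he (by omega) hk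
        exact Or.inr (Or.inl ⟨d, m, x, he.le, by omega, h3, by rw [hx1]; exact_mod_cast hk2, hx2, hx3, hx4⟩)

end PX
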