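import Pool.Agent.Helper81.PX.Base
import Pool.Agent.Helper81.PW.Lie
import Pool.Agent.Helper27.TF.Frame

/-!
Project PX (MP_b8862a_ag): the Lie side.
-/

set_option linter.unusedSectionVars false

open Module LieModule LieAlgebra LieAlgebra.IsKilling AddMonoidAlgebra MTP.MF PF PF.W PF.L PF.CC TF TF.L PW

namespace PX

variable {K : Type*} [Field K] [CharZero K] [IsAlgClosed K]
  {L : Type*} [LieRing L] [LieAlgebra K L] [FiniteDimensional K L] [IsKilling K L]
  {H : LieSubalgebra K L} [H.IsCartanSubalgebra]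
  {V : Type*} [AddCommGroup V] [Module K V] [FiniteDimensional K V]
  [LieRingModule L V] [LieModule K L V] {I : Type*} [Fintype I] {ω : LinearMap.BilinForm K V}

/-- type `A_2`: the highest weight of a self dual module -/
theorem eq_of_A2 (B : WB (V := V) H I) (hsat : Sat (Ph (rootSystem H)) (Xw B)) (b : (rootSystem H).Base) {t : I}
    (htb : ∀ i, Below b (B.w t) (B.w i)) {i j : H.root} (hi : i ∈ b.support) (hj : j ∈ b.support) (hij : i ≠ j)
    (hsup : ∀ l ∈ b.support, l = i ∨ l = j) (h1 : (rootSystem H).pairingIn ℤ i j = -1)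
    (h2 : (rootSystem H).pairingIn ℤ j i = -1) : wt B t i = wt B t j := by
  classical
  have e1 : PF.CC.rt (rootSystem H) i j = -1 := h1
  have e2 : PF.CC.rt (rootSystem H) j i = -1 := h2
  have e3 : PF.CC.rt (rootSystem H) i i = 2 := rt_self _ i
  have e4 : PF.CC.rt (rootSystem H) j j = 2 := rt_self _ j
  have hPh : ∀ a : H.root, vec (PF.CC.rt (rootSystem H) a) ∈ Ph (rootSystem H) := fun a => (mem_Ph _).2 ⟨a, rfl⟩
  have hPh' : ∀ a : H.root, -vec (PF.CC.rt (rootSystem H) a) ∈ Ph (rootSystem H) := by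
    intro a
    refine (mem_Ph _).2 ⟨(rootSystem H).reflectionPerm a a, ?_⟩
    rw [← vec_neg]
    congr 1
    funext β
    rw [rt_neg]
    rfl
  -- a reflection
  have hstep : ∀ (a : H.root) (i0 : I), ∃ i1 : I, ∀ c, wt B i1 c = wt B i0 c - wt B i0 a * PF.CC.rt (rootSystem H) a c := by
    intro a i0
    have h3 := TF.Sat.refl27 hsat (hPh a) (hPh' a) ((mem_Xw B).2 ⟨i0, rfl⟩)
    rw [co_vec _ (wt_wt B i0) a, ← vec_sub_smul] at h3
    obtain ⟨i1, hi1⟩ := (mem_Xw B).1 h3
    refine ⟨i1, fun c => ?_⟩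
    have h4 := congrFun (vec_inj hi1) c
    rw [h4]
    simp
  obtain ⟨i0, hi0⟩ : ∃ i0 : I, ∀ c, wt B i0 c = -wt B t c := by
    have h3 := hsat.neg _ ((mem_Xw B).2 ⟨t, rfl⟩)
    rw [← vec_neg] at h3
    obtain ⟨i0, hi0⟩ := (mem_Xw B).1 h3
    exact ⟨i0, fun c => congrFun (vec_inj hi0) c⟩
  obtain ⟨i1, hi1⟩ := hstep i i0
  obtain ⟨i2, hi2⟩ := hstep j i1
  obtain ⟨i3, hi3⟩ := hstep i i2
  have f1 : wt B i3 i = wt B t j := by
    rw [hi3, hi2, hi1, hi1, hi0, hi0, e1, e2, e3]
    ring
  have f2 : wt B i3 j = wt B t i := by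
    rw [hi3, hi2, hi2, hi1, hi1, hi0, hi0, e1, e2, e3, e4]
    ring
  obtain ⟨κ, hκ⟩ := htb i3
  have hsupp : b.support = {i, j} := by
    ext l
    rw [Finset.mem_insert, Finset.mem_singleton]
    constructor
    · exact hsup l
    · rintro (rfl | rfl)
      · exact hi
      · exact hj
  have hev : ∀ c : H.root, wt B i3 c = wt B t c - (κ i * PF.CC.rt (rootSystem H) i c + κ j * PF.CC.rt (rootSystem H) j c) := by
    intro c
    have h3 : B.w i3 (coroot c.1) = B.w t (coroot c.1) - ((κ i : K) * i.1 (coroot c.1) + (κ j : K) * j.1 (coroot c.1)) := by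
      rw [hκ, hsupp, Finset.sum_pair hij]
      rfl
    rw [wt_spec, wt_spec, rt_spec, rt_spec] at h3
    exact_mod_cast h3
  have g1 := hev i
  have g2 := hev j
  rw [f1, e3, e2] at g1
  rw [f2, e1, e4] at g2
  omega

/-- **The finer arithmetic datum.** -/
theorem exists_dt2 (B : WB (V := V) H I) [Nonempty I] [Nonempty H.root] [(rootSystem H).IsIrreducible]
    (hirr : ∀ W : Submodule K V, (∀ x : L, ∀ u ∈ W, ⁅x, u⁆ ∈ W) → W = ⊥ ∨ W = ⊤)
    (hfaith : ∀ x : L, (∀ u : V, ⁅x, u⁆ = 0) → x = 0)
    (hnd : ω.Nondegenerate) (hsk : ∀ (x : L) (u v : V), ω ⁅x, u⁆ v = - ω u ⁅x, v⁆)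
    (hA : ¬ TypeA (Ph (rootSystem H))) : Dt2 (Ph (rootSystem H)).card (Fintype.card I) := by
  classical
  obtain ⟨b⟩ : Nonempty (rootSystem H).Base := (rootSystem H).nonempty_base
  obtain ⟨t, htb, htdom, hdim⟩ := dimension B hirr hfaith b
  have hsat := sat B hirr hnd hsk
  -- expansions of the positive coroots
  have hc : ∀ α ∈ pos b, ∃ f : H.root → ℕ, coroot α.1 = ∑ j ∈ b.support, (f j : K) • coroot j.1 ∧
      0 < ∑ j ∈ b.support, f j := by
    intro α hα
    have : b.IsPos α := by simpa [pos] using hα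
    obtain ⟨f, hf, hf'⟩ := coroot_eq_sum b this
    exact ⟨f, hf, hf'⟩
  choose! f hf hf' using hc
  have e1 : ∀ α ∈ pos b, rho b (coroot α.1) = ((∑ j ∈ b.support, f α j : ℕ) : K) := by
    intro α hα
    rw [hf α hα, map_sum, Nat.cast_sum]
    refine Finset.sum_congr rfl fun j hj => ?_
    have : rho b (coroot j.1) = 1 := rho_coroot b hj
    rw [map_smul, this, smul_eq_mul, mul_one]
  obtain ⟨R, hR⟩ : ∃ R : H.root → ℤ, R = fun α => ∑ β ∈ pos b, PF.CC.rt (rootSystem H) β α := ⟨_, rfl⟩
  have hR1 : ∀ α ∈ pos b, R α = 2 * ((∑ j ∈ b.support, f α j : ℕ) : ℤ) := by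
    intro α hα
    have h1 : ((R α : ℤ) : K) = ((2 * ((∑ j ∈ b.support, f α j : ℕ) : ℤ) : ℤ) : K) := by
      have h2 := two_rho b α
      rw [e1 α hα] at h2
      rw [hR, ← h2]
      push_cast
      rfl
    exact_mod_cast h1
  have h2 := two_le_card b hA
  have hcardPh : (Ph (rootSystem H)).card = Fintype.card H.root := by
    unfold Ph
    rw [Finset.card_image_of_injective _ fun α β h => rt_inj (rootSystem H) (vec_inj h), Finset.card_univ]
  choose! k hk using htdom
  have hkw : ∀ j ∈ b.support, wt B t j = k j := by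
    intro j hj
    have h1 : ((wt B t j : ℤ) : K) = ((k j : ℤ) : K) := by
      rw [← wt_spec, hk j hj]
      push_cast
      rfl
    exact_mod_cast h1
  obtain ⟨er⟩ : Nonempty (Fin b.support.card ≃ b.support) := ⟨b.support.equivFin.symm⟩
  obtain ⟨eN⟩ : Nonempty (Fin (pos b).card ≃ pos b) := ⟨(pos b).equivFin.symm⟩
  have hsup : ∀ j ∈ b.support, j ∈ pos b := by
    intro j hj
    have := RootPairing.Base.isPos_of_mem_support hj
    simpa [pos] using this
  have hsum : ∀ g : H.root → ℕ, ∑ j, g (er j) = ∑ j ∈ b.support, g j := by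
    intro g
    rw [Equiv.sum_comp er (fun j : b.support => g j), Finset.sum_coe_sort b.support g]
  have hprod : ∀ g : H.root → ℕ, ∏ a, g (eN a) = ∏ a ∈ pos b, g a := by
    intro g
    rw [Equiv.prod_comp eN (fun j : pos b => g j), Finset.prod_coe_sort (pos b) g]
  have hposle : (pos b).card ≤ Fintype.card H.root := Finset.card_le_univ _
  have hsuple : b.support.card ≤ Fintype.card H.root := Finset.card_le_univ _
  refine ⟨b.support.card, (pos b).card, fun a j => f (eN a) (er j), fun j => k (er j) + 1,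
    fun j => eN.symm ⟨er j, hsup _ (er j).2⟩, h2, ?_, ?_, ?_, ?_, ?_, ?_, ?_, ?_, ?_⟩
  · rw [hcardPh]
    exact hsuple
  · rw [hcardPh]
    exact hposle
  · intro a j
    rw [hcardPh]
    have h3 : f (eN a) (er j) ≤ ∑ j ∈ b.support, f (eN a) j :=
      Finset.single_le_sum (f := fun j => f (eN a) j) (fun _ _ => Nat.zero_le _) (er j).2
    have h4 := hR1 (eN a) (eN a).2
    have h5 : R (eN a) ≤ 4 * (Fintype.card H.root : ℤ) := by
      rw [hR]
      have h6 : ∀ β ∈ pos b, PF.CC.rt (rootSystem H) β (eN a) ≤ 4 := by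
        intro β _
        have h1 := (rootSystem H).pairingIn_pairingIn_mem_set_of_isCrystal_of_isRed β (eN a)
        have h2 : PF.CC.rt (rootSystem H) β (eN a) = (rootSystem H).pairingIn ℤ β (eN a) := rfl
        rw [h2]
        simp only [Set.mem_insert_iff, Set.mem_singleton_iff, Prod.mk.injEq] at h1
        rcases h1 with h | h | h | h | h | h | h | h | h | h | h | h | h <;> rw [h.1] <;> norm_num
      refine (Finset.sum_le_sum h6).trans ?_
      rw [Finset.sum_const, nsmul_eq_mul]
      have : ((pos b).card : ℤ) ≤ (Fintype.card H.root : ℤ) := by exact_mod_cast hposle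
      linarith
    have h6 : ((∑ j ∈ b.support, f (eN a) j : ℕ) : ℤ) ≤ 4 * (Fintype.card H.root : ℤ) := by
      have : (0 : ℤ) ≤ ((∑ j ∈ b.support, f (eN a) j : ℕ) : ℤ) := Int.natCast_nonneg _
      linarith
    have h7 : ∑ j ∈ b.support, f (eN a) j ≤ 4 * Fintype.card H.root := by exact_mod_cast h6
    exact h3.trans h7
  · intro a
    rw [hsum (fun j => f (eN a) j)]
    exact hf' _ (eN a).2
  · intro j
    exact Nat.succ_pos _
  · intro j j' hjj
    have h3 := eN.symm.injective hjj
    have h4 : ((er j : b.support) : H.root) = ((er j' : b.support) : H.root) := congrArg (fun z : pos b => (z : H.root)) h3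
    exact er.injective (Subtype.ext h4)
  · intro j i
    simp only [Equiv.apply_symm_apply]
    have h3 : (rootSystem H).coroot (er j) = ∑ l ∈ b.support, ((if l = (er j : H.root) then 1 else 0 : ℕ) : K) •
        (rootSystem H).coroot l := by
      simp only [Nat.cast_ite, Nat.cast_one, Nat.cast_zero, ite_smul, one_smul, zero_smul, Finset.sum_ite_eq', (er j).2,
        if_true]
    have h4 := hf (er j) (hsup _ (er j).2)
    have h5 := coef_unique b (f := f (er j)) (g := fun l => if l = (er j : H.root) then 1 else 0)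
      (by rw [← h3]; exact h4.symm) (er i).2
    rw [h5]
    by_cases hij : i = j
    · rw [if_pos hij, if_pos (by rw [hij])]
    · rw [if_neg hij, if_neg]
      intro h6
      exact hij (er.injective (Subtype.ext h6))
  · rcases exists_sdr (P := (rootSystem H).flip) b.flip h2 with ⟨s, hs, hs'⟩ | ⟨i, hi, j, hj, hij, hsupp, hp1, hp2⟩
    · left
      have hpos : ∀ j ∈ b.support, s j ∈ pos b ∧ s j ∉ b.support ∧ 1 ≤ f (s j) j := by
        intro j hj
        obtain ⟨g, hg, hgj, hg2⟩ := hs' j hj
        have h3 : b.IsPos (s j) := by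
          rw [← isPos_flip b, RootPairing.Base.isPos_iff]
          have h4 := b.flip.height_eq_sum (i := s j) (f := fun l => (g l : ℤ)) (by
            rw [hg]
            refine Finset.sum_congr rfl fun l _ => ?_
            rw [natCast_zsmul, Nat.cast_smul_eq_nsmul])
          rw [h4]
          have h5 : (2 : ℤ) ≤ ((∑ l ∈ b.support, g l : ℕ) : ℤ) := by exact_mod_cast hg2
          push_cast at h5
          have h6 : b.flip.support = b.support := rfl
          rw [h6]
          omega
        have h4 : s j ∈ pos b := by simpa [pos] using h3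
        have h5 : ∀ l ∈ b.support, f (s j) l = g l := fun l hl =>
          coef_unique b ((hf (s j) h4).symm.trans hg) hl
        refine ⟨h4, ?_, by rw [h5 j hj]; exact hgj⟩
        intro h6
        have h7 := Cf.simple (P := (rootSystem H).flip) (b := b.flip) (i := s j) h6
        have h8 := Finset.sum_congr rfl fun l hl => Cf.unique (P := (rootSystem H).flip) hg h7 (j := l) hl
        rw [h8] at hg2
        simp only [Finset.sum_ite_eq'] at hg2
        split_ifs at hg2
        · omega
        · omega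
      refine ⟨fun j => eN.symm ⟨s (er j), (hpos _ (er j).2).1⟩, ?_, ?_, ?_⟩
      · intro j j' hjj
        have h3 := eN.symm.injective hjj
        have h4 : s (er j) = s (er j') := congrArg (fun z : pos b => (z : H.root)) h3
        exact er.injective (Subtype.ext (hs (er j).2 (er j').2 h4))
      · intro i j hij
        have h3 := eN.symm.injective hij
        have h4 : ((er i : b.support) : H.root) = s (er j) := congrArg (fun z : pos b => (z : H.root)) h3
        have h5 := (hpos _ (er j).2).2.1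
        rw [← h4] at h5
        exact h5 (er i).2
      · intro j
        simp only [Equiv.apply_symm_apply]
        exact (hpos _ (er j).2).2.2
    · right
      have h3 : wt B t i = wt B t j := by
        refine eq_of_A2 B hsat b htb hi hj hij hsupp ?_ ?_
        · rw [← hp2]; rfl
        · rw [← hp1]; rfl
      have hi' : i ∈ b.support := hi
      have hj' : j ∈ b.support := hj
      have h4 : k i = k j := by
        rw [hkw i hi', hkw j hj'] at h3
        exact_mod_cast h3
      have h5 : ∀ l : b.support, k l = k i := by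
        intro l
        rcases hsupp l l.2 with h | h
        · rw [h]
        · rw [h, h4]
      intro a c
      change k (er a) + 1 = k (er c) + 1
      rw [h5 (er a), h5 (er c)]
  · have e2 : ∀ α ∈ pos b, (B.w t + rho b) (coroot α.1) = ((∑ j ∈ b.support, f α j * (k j + 1) : ℕ) : K) := by
      intro α hα
      rw [hf α hα, map_sum, Nat.cast_sum]
      refine Finset.sum_congr rfl fun j hj => ?_
      have h3 : rho b (coroot j.1) = 1 := rho_coroot b hj
      rw [map_smul, LinearMap.add_apply, h3, hk j hj, smul_eq_mul, Nat.cast_mul, Nat.cast_add, Nat.cast_one]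
    have h3 : Fintype.card I * ∏ α ∈ pos b, (∑ j ∈ b.support, f α j) = ∏ α ∈ pos b, (∑ j ∈ b.support, f α j * (k j + 1)) := by
      have h4 : ((Fintype.card I * ∏ α ∈ pos b, (∑ j ∈ b.support, f α j) : ℕ) : K) =
          ((∏ α ∈ pos b, (∑ j ∈ b.support, f α j * (k j + 1)) : ℕ) : K) := by
        rw [Nat.cast_mul, Nat.cast_prod, Nat.cast_prod, ← Finset.prod_congr rfl e1, ← Finset.prod_congr rfl e2]
        exact hdim
      exact_mod_cast h4
    have h5 : ∏ a, ∑ j, f (eN a) (er j) = ∏ α ∈ pos b, (∑ j ∈ b.support, f α j) := by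
      rw [← hprod (fun α => ∑ j ∈ b.support, f α j)]
      exact Finset.prod_congr rfl fun a _ => hsum (fun j => f (eN a) j)
    have h6 : ∏ a, ∑ j, f (eN a) (er j) * (k (er j) + 1) = ∏ α ∈ pos b, (∑ j ∈ b.support, f α j * (k j + 1)) := by
      rw [← hprod (fun α => ∑ j ∈ b.support, f α j * (k j + 1))]
      exact Finset.prod_congr rfl fun a _ => hsum (fun j => f (eN a) j * (k j + 1))
    rw [h5, h6]
    exact h3

theorem exists_wd2 (B : WB (V := V) H I) [Nonempty I] [Nonempty H.root] [(rootSystem H).IsIrreducible]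
    (hirr : ∀ W : Submodule K V, (∀ x : L, ∀ u ∈ W, ⁅x, u⁆ ∈ W) → W = ⊥ ∨ W = ⊤)
    (hfaith : ∀ x : L, (∀ u : V, ⁅x, u⁆ = 0) → x = 0)
    (hnd : ω.Nondegenerate) (hsk : ∀ (x : L) (u v : V), ω ⁅x, u⁆ v = - ω u ⁅x, v⁆) :
    ∃ l v : EuclideanSpace ℝ H.root, Wd2 (PF.CC.Ph (rootSystem H)) (PF.CC.Xw B) (Fintype.card I) l v := by
  obtain ⟨l, v, h⟩ := exists_wd B hirr hfaith hnd hsk
  exact ⟨l, v, ⟨h, fun hA => exists_dt2 B hirr hfaith hnd hsk hA⟩⟩

end PX
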