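import Pool.Agent.Helper81.PX.Base3
import Pool.Agent.Helper81.PX.Lie

/-!
Project PX (MP_b8862a_ag): the Lie side, for the bound `O(√X)`.
-/

set_option linter.unusedSectionVars false

open Module LieModule LieAlgebra LieAlgebra.IsKilling AddMonoidAlgebra MTP.MF PF PF.W PF.L PF.CC TF TF.L PW

namespace PX

variable {K : Type*} [Field K] [CharZero K] [IsAlgClosed K]
  {L : Type*} [LieRing L] [LieAlgebra K L] [FiniteDimensional K L] [IsKilling K L]
  {H : LieSubalgebra K L} [H.IsCartanSubalgebra]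
  {V : Type*} [AddCommGroup V] [Module K V] [FiniteDimensional K V]
  [LieRingModule L V] [LieModule K L V] {I : Type*} [Fintype I] {ω : LinearMap.BilinForm K V}

/-- **The finer arithmetic datum.** -/
theorem exists_dt3 (B : WB (V := V) H I) [Nonempty I] [Nonempty H.root] [(rootSystem H).IsIrreducible]
    (hirr : ∀ W : Submodule K V, (∀ x : L, ∀ u ∈ W, ⁅x, u⁆ ∈ W) → W = ⊥ ∨ W = ⊤)
    (hfaith : ∀ x : L, (∀ u : V, ⁅x, u⁆ = 0) → x = 0)
    (hnd : ω.Nondegenerate) (hsk : ∀ (x : L) (u v : V), ω ⁅x, u⁆ v = - ω u ⁅x, v⁆)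
    (hA : ¬ TypeA (Ph (rootSystem H))) : Dt3 (Ph (rootSystem H)).card (Fintype.card I) := by
  classical
  obtain ⟨b⟩ : Nonempty (rootSystem H).Base := (rootSystem H).nonempty_base
  obtain ⟨t, htb, htdom, hdim⟩ := dimension B hirr hfaith b
  have hsat := sat B hirr hnd hsk
  -- expansions of the positive coroots
  have hc : ∀ α ∈ pos b, ∃ f : H.root → ℕ, coroot α.1 = ∑ j ∈ b.support, (f j : K) • coroot j.1 ∧
      0 < ∑ j ∈ b.support, f j := by
    intro α hα
    have : b.IsPos α := by simpa [pos] using hα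
    obtain ⟨f, hf, hf'⟩ := coroot_eq_sum b this
    exact ⟨f, hf, hf'⟩
  choose! f hf hf' using hc
  have e1 : ∀ α ∈ pos b, rho b (coroot α.1) = ((∑ j ∈ b.support, f α j : ℕ) : K) := by
    intro α hα
    rw [hf α hα, map_sum, Nat.cast_sum]
    refine Finset.sum_congr rfl fun j hj => ?_
    have : rho b (coroot j.1) = 1 := rho_coroot b hj
    rw [map_smul, this, smul_eq_mul, mul_one]
  obtain ⟨R, hR⟩ : ∃ R : H.root → ℤ, R = fun α => ∑ β ∈ pos b, PF.CC.rt (rootSystem H) β α := ⟨_, rfl⟩
  have hR1 : ∀ α ∈ pos b, R α = 2 * ((∑ j ∈ b.support, f α j : ℕ) : ℤ) := by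
    intro α hα
    have h1 : ((R α : ℤ) : K) = ((2 * ((∑ j ∈ b.support, f α j : ℕ) : ℤ) : ℤ) : K) := by
      have h2 := two_rho b α
      rw [e1 α hα] at h2
      rw [hR, ← h2]
      push_cast
      rfl
    exact_mod_cast h1
  have h2 := two_le_card b hA
  have hcardPh : (Ph (rootSystem H)).card = Fintype.card H.root := by
    unfold Ph
    rw [Finset.card_image_of_injective _ fun α β h => rt_inj (rootSystem H) (vec_inj h), Finset.card_univ]
  choose! k hk using htdom
  have hkw : ∀ j ∈ b.support, wt B t j = k j := by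
    intro j hj
    have h1 : ((wt B t j : ℤ) : K) = ((k j : ℤ) : K) := by
      rw [← wt_spec, hk j hj]
      push_cast
      rfl
    exact_mod_cast h1
  obtain ⟨er⟩ : Nonempty (Fin b.support.card ≃ b.support) := ⟨b.support.equivFin.symm⟩
  obtain ⟨eN⟩ : Nonempty (Fin (pos b).card ≃ pos b) := ⟨(pos b).equivFin.symm⟩
  have hsup : ∀ j ∈ b.support, j ∈ pos b := by
    intro j hj
    have := RootPairing.Base.isPos_of_mem_support hj
    simpa [pos] using this
  have hsum : ∀ g : H.root → ℕ, ∑ j, g (er j) = ∑ j ∈ b.support, g j := by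
    intro g
    rw [Equiv.sum_comp er (fun j : b.support => g j), Finset.sum_coe_sort b.support g]
  have hprod : ∀ g : H.root → ℕ, ∏ a, g (eN a) = ∏ a ∈ pos b, g a := by
    intro g
    rw [Equiv.prod_comp eN (fun j : pos b => g j), Finset.prod_coe_sort (pos b) g]
  have hposle : (pos b).card ≤ Fintype.card H.root := Finset.card_le_univ _
  have hsuple : b.support.card ≤ Fintype.card H.root := Finset.card_le_univ _
  have hpos : ∀ (s : H.root) (g : H.root → ℕ), Cf (P := (rootSystem H).flip) b.flip g s → 1 ≤ ∑ l ∈ b.support, g l →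
      s ∈ pos b ∧ ∀ l ∈ b.support, f s l = g l := by
    intro s g hg hg2
    have h3 : b.IsPos s := by
      rw [← isPos_flip b, RootPairing.Base.isPos_iff]
      have h4 := b.flip.height_eq_sum (i := s) (f := fun l => (g l : ℤ)) (by
        rw [hg]
        refine Finset.sum_congr rfl fun l _ => ?_
        rw [natCast_zsmul, Nat.cast_smul_eq_nsmul])
      rw [h4]
      have h5 : (1 : ℤ) ≤ ((∑ l ∈ b.support, g l : ℕ) : ℤ) := by exact_mod_cast hg2
      push_cast at h5
      have h6 : b.flip.support = b.support := rfl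
      rw [h6]
      omega
    have h4 : s ∈ pos b := by simpa [pos] using h3
    exact ⟨h4, fun l hl => coef_unique b ((hf s h4).symm.trans hg) hl⟩
  refine ⟨b.support.card, (pos b).card, fun a j => f (eN a) (er j), fun j => k (er j) + 1,
    h2, ?_, ?_, ?_, ?_, ?_, ?_, ?_, ?_⟩
  · rw [hcardPh]
    exact hsuple
  · rw [hcardPh]
    exact hposle
  · intro a j
    rw [hcardPh]
    have h3 : f (eN a) (er j) ≤ ∑ j ∈ b.support, f (eN a) j :=
      Finset.single_le_sum (f := fun j => f (eN a) j) (fun _ _ => Nat.zero_le _) (er j).2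
    have h4 := hR1 (eN a) (eN a).2
    have h5 : R (eN a) ≤ 4 * (Fintype.card H.root : ℤ) := by
      rw [hR]
      have h6 : ∀ β ∈ pos b, PF.CC.rt (rootSystem H) β (eN a) ≤ 4 := by
        intro β _
        have h1 := (rootSystem H).pairingIn_pairingIn_mem_set_of_isCrystal_of_isRed β (eN a)
        have h2 : PF.CC.rt (rootSystem H) β (eN a) = (rootSystem H).pairingIn ℤ β (eN a) := rfl
        rw [h2]
        simp only [Set.mem_insert_iff, Set.mem_singleton_iff, Prod.mk.injEq] at h1
        rcases h1 with h | h | h | h | h | h | h | h | h | h | h | h | h <;> rw [h.1] <;> norm_num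
      refine (Finset.sum_le_sum h6).trans ?_
      rw [Finset.sum_const, nsmul_eq_mul]
      have : ((pos b).card : ℤ) ≤ (Fintype.card H.root : ℤ) := by exact_mod_cast hposle
      linarith
    have h6 : ((∑ j ∈ b.support, f (eN a) j : ℕ) : ℤ) ≤ 4 * (Fintype.card H.root : ℤ) := by
      have : (0 : ℤ) ≤ ((∑ j ∈ b.support, f (eN a) j : ℕ) : ℤ) := Int.natCast_nonneg _
      linarith
    have h7 : ∑ j ∈ b.support, f (eN a) j ≤ 4 * Fintype.card H.root := by exact_mod_cast h6
    exact h3.trans h7
  · intro a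
    rw [hsum (fun j => f (eN a) j)]
    exact hf' _ (eN a).2
  · intro j
    exact Nat.succ_pos _
  · intro j m hm1 hm2
    obtain ⟨J, hJ, hJc, hjJ, γ, g, hg, hg1, hg0⟩ := exists_conn (P := (rootSystem H).flip) b.flip (v := (er j : H.root))
      (er j).2 m hm1 hm2
    have hJ' : J ⊆ b.support := hJ
    have hs : ∑ l ∈ b.support, g l = m := by
      rw [← Finset.sum_subset hJ' (fun l _ hl => hg0 l hl), Finset.sum_congr rfl hg1, Finset.sum_const, hJc, smul_eq_mul,
        mul_one]
    obtain ⟨h3, h4⟩ := hpos γ g hg (by omega)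
    refine ⟨eN.symm ⟨γ, h3⟩, ?_, ?_, ?_⟩
    · simp only [Equiv.apply_symm_apply]
      rw [h4 _ (er j).2, hg1 _ hjJ]
    · intro i
      simp only [Equiv.apply_symm_apply]
      rw [h4 _ (er i).2]
      by_cases hi : (er i : H.root) ∈ J
      · rw [hg1 _ hi]
      · rw [hg0 _ hi]; omega
    · simp only [Equiv.apply_symm_apply]
      rw [hsum (fun l => f γ l), Finset.sum_congr rfl h4, hs]
  · by_cases h3r : 3 ≤ b.support.card
    · exact Or.inl h3r
    · right
      rcases exists_two (P := (rootSystem H).flip) b.flip (le_antisymm (by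
        change b.support.card ≤ 2
        omega) h2) with ⟨γ, γ', g, g', hne, hg, hg', h1, h1'⟩ | ⟨i, hi, j, hj, hij, hsupp, hp1, hp2⟩
      · left
        have hone : ∀ g : H.root → ℕ, (∀ l ∈ b.flip.support, 1 ≤ g l) → 1 ≤ ∑ l ∈ b.support, g l := by
          intro g hg
          have h3 : b.support.card ≤ ∑ l ∈ b.support, g l := by
            rw [Finset.card_eq_sum_ones]
            exact Finset.sum_le_sum hg
          omega
        obtain ⟨p1, p2⟩ := hpos γ g hg (hone g h1)
        obtain ⟨p1', p2'⟩ := hpos γ' g' hg' (hone g' h1')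
        refine ⟨eN.symm ⟨γ, p1⟩, eN.symm ⟨γ', p1'⟩, ?_, ?_, ?_⟩
        · intro h
          exact hne (congrArg (fun z : pos b => (z : H.root)) (eN.symm.injective h))
        · intro j
          simp only [Equiv.apply_symm_apply]
          rw [p2 _ (er j).2]
          exact h1 _ (er j).2
        · intro j
          simp only [Equiv.apply_symm_apply]
          rw [p2' _ (er j).2]
          exact h1' _ (er j).2
      · right
        have h3 : wt B t i = wt B t j := by
          refine eq_of_A2 B hsat b htb hi hj hij hsupp ?_ ?_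
          · rw [← hp2]; rfl
          · rw [← hp1]; rfl
        have hi' : i ∈ b.support := hi
        have hj' : j ∈ b.support := hj
        have h4 : k i = k j := by
          rw [hkw i hi', hkw j hj'] at h3
          exact_mod_cast h3
        have h5 : ∀ l : b.support, k l = k i := by
          intro l
          rcases hsupp l l.2 with h | h
          · rw [h]
          · rw [h, h4]
        intro a c
        change k (er a) + 1 = k (er c) + 1
        rw [h5 (er a), h5 (er c)]
  · have e2 : ∀ α ∈ pos b, (B.w t + rho b) (coroot α.1) = ((∑ j ∈ b.support, f α j * (k j + 1) : ℕ) : K) := by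
      intro α hα
      rw [hf α hα, map_sum, Nat.cast_sum]
      refine Finset.sum_congr rfl fun j hj => ?_
      have h3 : rho b (coroot j.1) = 1 := rho_coroot b hj
      rw [map_smul, LinearMap.add_apply, h3, hk j hj, smul_eq_mul, Nat.cast_mul, Nat.cast_add, Nat.cast_one]
    have h3 : Fintype.card I * ∏ α ∈ pos b, (∑ j ∈ b.support, f α j) = ∏ α ∈ pos b, (∑ j ∈ b.support, f α j * (k j + 1)) := by
      have h4 : ((Fintype.card I * ∏ α ∈ pos b, (∑ j ∈ b.support, f α j) : ℕ) : K) =
          ((∏ α ∈ pos b, (∑ j ∈ b.support, f α j * (k j + 1)) : ℕ) : K) := by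
        rw [Nat.cast_mul, Nat.cast_prod, Nat.cast_prod, ← Finset.prod_congr rfl e1, ← Finset.prod_congr rfl e2]
        exact hdim
      exact_mod_cast h4
    have h5 : ∏ a, ∑ j, f (eN a) (er j) = ∏ α ∈ pos b, (∑ j ∈ b.support, f α j) := by
      rw [← hprod (fun α => ∑ j ∈ b.support, f α j)]
      exact Finset.prod_congr rfl fun a _ => hsum (fun j => f (eN a) j)
    have h6 : ∏ a, ∑ j, f (eN a) (er j) * (k (er j) + 1) = ∏ α ∈ pos b, (∑ j ∈ b.support, f α j * (k j + 1)) := by
      rw [← hprod (fun α => ∑ j ∈ b.support, f α j * (k j + 1))]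
      exact Finset.prod_congr rfl fun a _ => hsum (fun j => f (eN a) j * (k j + 1))
    rw [h5, h6]
    exact h3

theorem exists_wd3 (B : WB (V := V) H I) [Nonempty I] [Nonempty H.root] [(rootSystem H).IsIrreducible]
    (hirr : ∀ W : Submodule K V, (∀ x : L, ∀ u ∈ W, ⁅x, u⁆ ∈ W) → W = ⊥ ∨ W = ⊤)
    (hfaith : ∀ x : L, (∀ u : V, ⁅x, u⁆ = 0) → x = 0)
    (hnd : ω.Nondegenerate) (hsk : ∀ (x : L) (u v : V), ω ⁅x, u⁆ v = - ω u ⁅x, v⁆) :
    ∃ l v : EuclideanSpace ℝ H.root, Wd3 (PF.CC.Ph (rootSystem H)) (PF.CC.Xw B) (Fintype.card I) l v := by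
  obtain ⟨l, v, h⟩ := exists_wd B hirr hfaith hnd hsk
  exact ⟨l, v, ⟨h, fun hA => exists_dt3 B hirr hfaith hnd hsk hA⟩⟩

end PX
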