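import Pool.Agent.Helper81.PX.Lie3
import Pool.Agent.Helper81.PW.Core

/-!
Project PX (MP_b8862a_ag): the core theorem for dimensions outside the exceptional set (bound `O(√X)`).
-/

set_option linter.unusedSectionVars false

open Module LieModule LieAlgebra LieAlgebra.IsKilling AddMonoidAlgebra MTP.MF PF PF.W PF.L TF PW
open Pool.Agent.Helper54.MT (semisimple_of_diag exists_cartan_end killing_of)

attribute [local instance 100] LieRing.ofAssociativeRing

namespace PX

/-- **The core theorem.** -/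
theorem core3 {V : Type} [AddCommGroup V] [Module ℂ V] [FiniteDimensional ℂ V] {ω : LinearMap.BilinForm ℂ V}
    (hω : ω.IsSymm ∨ ω.IsAlt) (hnd : ω.Nondegenerate) {L : LieSubalgebra ℂ (Module.End ℂ V)} [IsSimple ℂ L]
    (hirr : ∀ W : Submodule ℂ V, (∀ x ∈ L, ∀ u ∈ W, x u ∈ W) → W = ⊥ ∨ W = ⊤)
    (hsk : ∀ x ∈ L, ∀ u v, ω (x u) v = -ω u (x v)) (hE : finrank ℂ V ∉ Ex3) :
    (∀ x : Module.End ℂ V, (∀ u v, ω (x u) v = -ω u (x v)) → x ∈ L) ∨
      ∀ h ∈ L, h ≠ 0 → (⨆ c : ℂ, Module.End.eigenspace h c) = ⊤ →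
        ∀ c : ℂ, finrank ℂ (Module.End.eigenspace h c) ≤ 1 := by
  classical
  by_cases hfull : ∀ x : Module.End ℂ V, (∀ u v, ω (x u) v = -ω u (x v)) → x ∈ L
  · exact Or.inl hfull
  right
  intro y hy hy0 hdiag c
  have hVn : Nontrivial V := by
    by_contra hcon
    rw [not_nontrivial_iff_subsingleton] at hcon
    apply hy0
    ext u
    exact Subsingleton.elim _ _
  have hS : MTP.IrrSymp ω L.toSubmodule := ⟨fun x hx y hy => L.lie_mem hx hy, fun x hx => hsk x hx, hirr⟩
  have hk : IsKilling ℂ L := killing_of hnd hS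
  obtain ⟨H, hH, hyH⟩ := exists_cartan_end (L := L) ⟨y, hy⟩ (semisimple_of_diag hdiag)
  have hirrR : (rootSystem H).IsIrreducible := inferInstance
  have hne : Nonempty H.root := by
    by_contra hcon
    rw [not_nonempty_iff] at hcon
    have hN : Nontrivial H := RootPairing.IsIrreducible.nontrivial' (rootSystem H)
    have h1 : (⊤ : Submodule ℂ H) = ⊥ := by
      have h2 : (rootSystem H).corootSpan ℂ = ⊤ := RootPairing.IsRootSystem.span_coroot_eq_top
      rw [← h2, RootPairing.corootSpan, Set.range_eq_empty, Submodule.span_empty]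
    exact bot_ne_top h1.symm
  have hirr' : ∀ W : Submodule ℂ V, (∀ x : L, ∀ u ∈ W, ⁅x, u⁆ ∈ W) → W = ⊥ ∨ W = ⊤ :=
    fun W hW => hirr W fun z hz w hw => hW ⟨z, hz⟩ w hw
  have hsk' : ∀ (x : L) (u v : V), ω ⁅x, u⁆ v = - ω u ⁅x, v⁆ := by
    intro x u v
    exact hsk x x.2 u v
  have hfaith : ∀ x : L, (∀ u : V, ⁅x, u⁆ = 0) → x = 0 := by
    intro x hx
    apply Subtype.ext
    ext u
    exact hx u
  obtain ⟨m, ⟨B⟩⟩ := exists_WB (V := V) (H := H) hirr'
  have hcard : Fintype.card (Fin m) = finrank ℂ V := by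
    rw [Module.finrank_eq_card_basis B.v]
  have hI : Nonempty (Fin m) := by
    rw [← Fintype.card_pos_iff, hcard]
    exact finrank_pos
  obtain ⟨l, v, hwd⟩ := exists_wd3 B hirr' hfaith hnd hsk'
  rw [hcard] at hwd
  have htri : TypeA (PF.CC.Ph (rootSystem H)) ∨ TypeB (PF.CC.Ph (rootSystem H)) (PF.CC.Xw B) ∨
      TypeD (PF.CC.Ph (rootSystem H)) (PF.CC.Xw B) := by
    by_contra hcon
    push Not at hcon
    exact hE ⟨H.root, inferInstance, _, _, l, v, hwd, hcon.1, hcon.2.1, hcon.2.2⟩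
  rcases htri with hA | hBD
  · rw [← PF.C.PhiS_eq] at hA
    have hy' : (⟨⟨y, hy⟩, hyH⟩ : H) ≠ 0 := by
      intro h
      apply hy0
      have := congrArg (fun z : H => ((z : L) : Module.End ℂ V)) h
      exact this
    exact PF.C.finrank_eig B ⟨⟨y, hy⟩, hyH⟩ (fun i j hij => (PF.C.typeA_simple B hirr' hA).2 _ hy' hij) c
  · by_cases hA : TypeA (PF.CC.Ph (rootSystem H))
    · rw [← PF.C.PhiS_eq] at hA
      have hy' : (⟨⟨y, hy⟩, hyH⟩ : H) ≠ 0 := by
        intro h
        apply hy0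
        have := congrArg (fun z : H => ((z : L) : Module.End ℂ V)) h
        exact this
      exact PF.C.finrank_eig B ⟨⟨y, hy⟩, hyH⟩ (fun i j hij => (PF.C.typeA_simple B hirr' hA).2 _ hy' hij) c
    · exfalso
      apply hfull
      intro x hx
      rcases hω with hsymm | halt
      · rcases PF.CC.choose_le B hirr' hnd hsk' hBD with h2 | h2
        · exact absurd h2 hA
        · rw [hcard] at h2
          exact PF.CC.full_of_le hsymm hnd L.toSubmodule (fun z hz => hsk z hz) h2 x hx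
      · rcases hBD with ht | ht
        · exfalso
          obtain ⟨N, y, hy, c, hc, hX, -⟩ := ht
          obtain ⟨i, hi⟩ := (PF.CC.mem_Xw B).1 ((hX 0).2 (Or.inl rfl))
          have h0 : B.w i = 0 := by
            apply PF.C.toE_inj (PF.C.intl_w B i) PF.C.intl_zero
            rw [toE_w, hi, PF.C.toE_zero]
          obtain ⟨b⟩ := RootPairing.nonempty_base (rootSystem H)
          obtain ⟨d, hd, hdodd⟩ := odd_rho B hirr' hnd halt hsk' b
          have h1 := hd i
          rw [h0, LinearMap.zero_apply] at h1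
          have h2 : d i = 0 := by exact_mod_cast h1.symm
          have h3 := hdodd i
          rw [h2] at h3
          exact absurd h3 (by decide)
        · rw [← XS_eq, ← PF.C.PhiS_eq] at ht
          exact PF.C.typeD_sp B hirr' ht hnd halt hsk' hx

theorem ex3_sub {n : ℕ} (h : n ∈ Ex3) : n ∈ Ex := by
  obtain ⟨ι, hι, Φ, X, l, v, h, hA, hB, hD⟩ := h
  exact ⟨ι, hι, Φ, X, l, v, h.toWd, hA, hB, hD⟩

/-- No number with a large prime factor is exceptional. -/
theorem ex3_prime {n q : ℕ} (hq : q.Prime) (hd : q ∣ n) (h25 : 25 * n ≤ q ^ 2) : n ∉ Ex3 :=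
  fun h => ex_prime hq hd h25 (ex3_sub h)

end PX
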