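import Pool.Agent.Helper81.PX.Defs
import Pool.Agent.Helper81.PW.Base

/-!
Project PX (MP_b8862a_ag): different non simple roots which contain the simple ones.
-/

set_option linter.unusedSectionVars false

open Module PF PF.W PF.L PW

namespace PX

variable {ι K M N : Type*} [Field K] [CharZero K] [AddCommGroup M] [Module K M] [AddCommGroup N] [Module K N]
  [Fintype ι] {P : RootPairing ι K M N} [P.IsRootSystem] [P.IsCrystallographic] [P.IsReduced]

/-- the root `α` has the coefficients `f` -/
def Cf (b : P.Base) (f : ι → ℕ) (α : ι) : Prop := P.root α = ∑ j ∈ b.support, (f j : K) • P.root j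

theorem Cf.unique {b : P.Base} {f g : ι → ℕ} {α : ι} (h : Cf b f α) (h' : Cf b g α) {j : ι} (hj : j ∈ b.support) :
    f j = g j :=
  coef_unique (P := P.flip) b.flip (h.symm.trans h') hj

theorem Cf.simple [DecidableEq ι] {b : P.Base} {i : ι} (hi : i ∈ b.support) : Cf b (fun l => if l = i then 1 else 0) i := by
  unfold Cf
  simp only [Nat.cast_ite, Nat.cast_one, Nat.cast_zero, ite_smul, one_smul, zero_smul, Finset.sum_ite_eq', hi, if_true]

theorem Cf.add {b : P.Base} {f g : ι → ℕ} {α β γ : ι} (h : Cf b f α) (h' : Cf b g β)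
    (hγ : P.root γ = P.root α + P.root β) : Cf b (fun l => f l + g l) γ := by
  unfold Cf at *
  rw [hγ, h, h', ← Finset.sum_add_distrib]
  refine Finset.sum_congr rfl fun l _ => ?_
  rw [Nat.cast_add, add_smul]

variable [P.IsIrreducible]

theorem exists_edge (b : P.Base) {J : Finset ι} (hJ : J ⊆ b.support) (hne : J.Nonempty) (hJ' : J ≠ b.support) :
    ∃ i ∈ J, ∃ j ∈ b.support, j ∉ J ∧ P.pairingIn ℤ i j < 0 := by
  classical
  by_contra! hcon
  have h0 : ∀ i ∈ J, ∀ j ∈ b.support, j ∉ J → P.pairing i j = 0 := by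
    intro i hi j hj hj'
    have hij : i ≠ j := by rintro rfl; exact hj' hi
    have h3 := b.pairingIn_le_zero_of_ne (i := i) (j := j) hij (hJ hi) hj
    have h4 := hcon i hi j hj hj'
    have h5 : P.pairingIn ℤ i j = 0 := le_antisymm h3 h4
    rw [← P.algebraMap_pairingIn ℤ, h5]
    simp
  obtain ⟨q, hq⟩ : ∃ q : Submodule K M, q = Submodule.span K (P.root '' (J : Set ι)) := ⟨_, rfl⟩
  have hmem : ∀ i ∈ J, P.root i ∈ q := by
    intro i hi
    rw [hq]
    exact Submodule.subset_span ⟨i, hi, rfl⟩
  have h1 : ∀ l ∈ b.support, q ∈ Module.End.invtSubmodule (P.reflection l) := by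
    intro l hl
    rw [Module.End.mem_invtSubmodule]
    have h2 : Submodule.span K (P.root '' (J : Set ι)) ≤ q.comap (P.reflection l : M →ₗ[K] M) := by
      rw [Submodule.span_le]
      rintro _ ⟨i, hi, rfl⟩
      change P.reflection l (P.root i) ∈ q
      rw [P.reflection_apply_root]
      by_cases hlJ : l ∈ J
      · exact sub_mem (hmem i hi) (Submodule.smul_mem _ _ (hmem l hlJ))
      · rw [h0 i hi l hl hlJ, zero_smul, sub_zero]
        exact hmem i hi
    rw [← hq] at h2
    exact h2
  have h3 : q = ⊤ := by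
    refine RootPairing.IsIrreducible.eq_top_of_invtSubmodule_reflection (P := P) q
      ((b.forall_mem_support_invtSubmodule_iff q).1 h1) ?_
    intro h4
    obtain ⟨i, hi⟩ := hne
    have h5 := hmem i hi
    rw [h4, Submodule.mem_bot] at h5
    exact P.ne_zero i h5
  obtain ⟨j, hj, hjJ⟩ : ∃ j ∈ b.support, j ∉ J := by
    by_contra! hcon2
    exact hJ' (Finset.Subset.antisymm hJ hcon2)
  have h4 : P.root j ∈ q := by
    rw [h3]
    trivial
  rw [hq, Submodule.mem_span_image_finset_iff_exists_fun'] at h4
  obtain ⟨c, hc⟩ := h4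
  have h5 := linearIndepOn_iff'.1 b.linearIndepOn_root (insert j J)
    (fun i => if i = j then -1 else c i) (by
      intro i hi
      rcases Finset.mem_insert.1 hi with rfl | hi
      · exact hj
      · exact hJ hi) (by
      rw [Finset.sum_insert hjJ, if_pos rfl, neg_smul, one_smul, ← hc]
      rw [neg_add_eq_zero]
      refine Finset.sum_congr rfl fun i hi => ?_
      rw [if_neg]
      rintro rfl
      exact hjJ hi) j (Finset.mem_insert_self _ _)
  simp at h5

theorem exists_add (b : P.Base) {f : ι → ℕ} {α j : ι} (hα : Cf b f α) (hj : j ∈ b.support) (h : P.pairingIn ℤ α j < 0) :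
    ∃ γ, P.root γ = P.root α + P.root j := by
  classical
  obtain ⟨γ, hγ⟩ := RootPairing.root_add_root_mem_of_pairingIn_neg P h (by
    intro h0
    have h1 : ∑ l ∈ b.support, ((f l + (if l = j then 1 else 0) : ℕ) : K) • P.root l =
        ∑ l ∈ b.support, ((0 : ℕ) : K) • P.root l := by
      have h2 := Cf.simple (b := b) hj
      unfold Cf at h2 hα
      simp only [Nat.cast_add, add_smul, Finset.sum_add_distrib]
      rw [← hα, ← h2, h0]
      simp
    have h3 := coef_unique (P := P.flip) b.flip (f := fun l => f l + if l = j then 1 else 0) (g := fun _ => 0) h1 hj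
    simp at h3)
  exact ⟨γ, hγ⟩

/-- a spanning tree -/
theorem exists_tree (b : P.Base) {v : ι} (hv : v ∈ b.support) : ∀ k, 1 ≤ k → k ≤ b.support.card →
    ∃ J ⊆ b.support, J.card = k ∧ v ∈ J ∧ ∃ t : ι → ι, Set.InjOn t {j | j ∈ J ∧ j ≠ v} ∧
      ∀ j ∈ J, j ≠ v → ∃ i ∈ J, i ≠ j ∧ P.root (t j) = P.root i + P.root j := by
  classical
  intro k hk
  induction k, hk using Nat.le_induction with
  | base =>
    intro _
    refine ⟨{v}, Finset.singleton_subset_iff.2 hv, Finset.card_singleton _, Finset.mem_singleton_self _, id, ?_, ?_⟩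
    · rintro j ⟨hj, hjv⟩
      exact absurd (Finset.mem_singleton.1 hj) hjv
    · intro j hj hjv
      exact absurd (Finset.mem_singleton.1 hj) hjv
  | succ k hk ih =>
    intro hk2
    obtain ⟨J, hJ, hc, hvJ, t, ht, ht'⟩ := ih (by omega)
    obtain ⟨i, hi, j, hj, hjJ, hneg⟩ := exists_edge b hJ ⟨v, hvJ⟩ (by
      rintro rfl
      omega)
    have hij : i ≠ j := by rintro rfl; exact hjJ hi
    obtain ⟨γ, hγ⟩ := exists_add b (Cf.simple (hJ hi)) hj hneg
    have hjv : j ≠ v := by rintro rfl; exact hjJ hvJ
    have hnew : ∀ j' ∈ J, j' ≠ v → t j' ≠ γ := by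
      intro j' hj' hj'v h
      obtain ⟨i', hi', _, h2⟩ := ht' j' hj' hj'v
      have e1 := Cf.add (Cf.simple (hJ hi')) (Cf.simple (hJ hj')) h2
      have e2 := Cf.add (Cf.simple (hJ hi)) (Cf.simple hj) hγ
      rw [h] at e1
      have e3 := e1.unique e2 hj
      have n1 : j ≠ i' := by rintro rfl; exact hjJ hi'
      have n2 : j ≠ j' := by rintro rfl; exact hjJ hj'
      simp [n1, n2, hij.symm] at e3
    refine ⟨insert j J, Finset.insert_subset hj hJ, by rw [Finset.card_insert_of_notMem hjJ, hc],
      Finset.mem_insert_of_mem hvJ, Function.update t j γ, ?_, ?_⟩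
    · rintro a ⟨ha, hav⟩ a' ⟨ha', hav'⟩ h
      rcases Finset.mem_insert.1 ha with haj | haJ
      · rcases Finset.mem_insert.1 ha' with haj' | haJ'
        · rw [haj, haj']
        · exfalso
          have n1 : a' ≠ j := fun h0 => hjJ (h0 ▸ haJ')
          rw [haj, Function.update_self, Function.update_of_ne n1] at h
          exact hnew a' haJ' hav' h.symm
      · have n1 : a ≠ j := fun h0 => hjJ (h0 ▸ haJ)
        rcases Finset.mem_insert.1 ha' with haj' | haJ'
        · exfalso
          rw [haj', Function.update_self, Function.update_of_ne n1] at h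
          exact hnew a haJ hav h
        · have n2 : a' ≠ j := fun h0 => hjJ (h0 ▸ haJ')
          rw [Function.update_of_ne n1, Function.update_of_ne n2] at h
          exact ht ⟨haJ, hav⟩ ⟨haJ', hav'⟩ h
    · intro a ha hav
      rcases Finset.mem_insert.1 ha with haj | haJ
      · rw [haj]
        exact ⟨i, Finset.mem_insert_of_mem hi, hij, by rw [Function.update_self]; exact hγ⟩
      · have n1 : a ≠ j := fun h0 => hjJ (h0 ▸ haJ)
        obtain ⟨i', hi', h1, h2⟩ := ht' a haJ hav
        exact ⟨i', Finset.mem_insert_of_mem hi', h1, by rw [Function.update_of_ne n1]; exact h2⟩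

/-- different non simple roots which contain the simple ones -/
theorem exists_sdr (b : P.Base) (h2 : 2 ≤ b.support.card) :
    (∃ t : ι → ι, Set.InjOn t b.support ∧ ∀ j ∈ b.support, ∃ f : ι → ℕ, Cf b f (t j) ∧ 1 ≤ f j ∧
      2 ≤ ∑ l ∈ b.support, f l) ∨
    ∃ i ∈ b.support, ∃ j ∈ b.support, i ≠ j ∧ (∀ l ∈ b.support, l = i ∨ l = j) ∧ P.pairingIn ℤ i j = -1 ∧
      P.pairingIn ℤ j i = -1 := by
  classical
  obtain ⟨v, hv⟩ : b.support.Nonempty := Finset.card_pos.1 (by omega)
  obtain ⟨J, hJ, hc, hvJ, t, ht, ht'⟩ := exists_tree b hv b.support.card (by omega) le_rfl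
  have hJe : J = b.support := Finset.eq_of_subset_of_card_le hJ (by rw [hc])
  subst hJe
  -- enough: one more root
  have key : ∀ γ (f : ι → ℕ), Cf b f γ → 1 ≤ f v → 2 ≤ ∑ l ∈ b.support, f l → (∀ j ∈ b.support, j ≠ v → t j ≠ γ) →
      ∃ t : ι → ι, Set.InjOn t b.support ∧ ∀ j ∈ b.support, ∃ f : ι → ℕ, Cf b f (t j) ∧ 1 ≤ f j ∧
      2 ≤ ∑ l ∈ b.support, f l := by
    intro γ f hf hfv hf2 hne
    refine ⟨Function.update t v γ, ?_, ?_⟩
    · intro a ha a' ha' h
      by_cases hav : a = v
      · subst hav
        by_cases hav' : a' = a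
        · exact hav'.symm
        · exfalso
          rw [Function.update_self, Function.update_of_ne hav'] at h
          exact hne a' ha' hav' h.symm
      · by_cases hav' : a' = v
        · subst hav'
          exfalso
          rw [Function.update_self, Function.update_of_ne hav] at h
          exact hne a ha hav h
        · rw [Function.update_of_ne hav, Function.update_of_ne hav'] at h
          exact ht ⟨ha, hav⟩ ⟨ha', hav'⟩ h
    · intro j hj
      by_cases hjv : j = v
      · subst hjv
        exact ⟨f, by rw [Function.update_self]; exact hf, hfv, hf2⟩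
      · obtain ⟨i, hi, hij, h3⟩ := ht' j hj hjv
        refine ⟨_, by rw [Function.update_of_ne hjv]; exact Cf.add (Cf.simple hi) (Cf.simple hj) h3, ?_, ?_⟩
        · simp
        · simp [Finset.sum_add_distrib, hi, hj]
  -- a neighbour
  obtain ⟨u, hu, huv, hneg⟩ := exists_nb b h2 hv
  obtain ⟨β, hβ⟩ := exists_add b (Cf.simple hv) hu hneg
  have hβf := Cf.add (Cf.simple hv) (Cf.simple hu) hβ
  have hneg' : P.pairingIn ℤ u v < 0 := (P.pairingIn_lt_zero_iff ℤ).1 hneg
  by_cases h3 : b.support = {v, u}
  · -- rank two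
    have hcase : ∀ k : ℕ, 2 ≤ k → ∀ γ, (P.root γ = P.root v + (k : K) • P.root u ∨ P.root γ = (k : K) • P.root v + P.root u) →
        ∃ t : ι → ι, Set.InjOn t b.support ∧ ∀ j ∈ b.support, ∃ f : ι → ℕ, Cf b f (t j) ∧ 1 ≤ f j ∧
          2 ≤ ∑ l ∈ b.support, f l := by
      intro k hk γ hγ
      obtain ⟨f, hf, hfv, hfu, hfs⟩ : ∃ f : ι → ℕ, Cf b f γ ∧ 1 ≤ f v ∧ 1 ≤ f u ∧ 3 ≤ f v + f u := by
        rcases hγ with h | h
        · refine ⟨fun l => (if l = v then 1 else 0) + (if l = u then k else 0), ?_, ?_, ?_, ?_⟩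
          · unfold Cf
            simp only [Nat.cast_add, add_smul, Finset.sum_add_distrib, Nat.cast_ite, Nat.cast_one, Nat.cast_zero, ite_smul,
              one_smul, zero_smul, Finset.sum_ite_eq', hv, hu, if_true]
            exact h
          · simp
          · simp [huv]; omega
          · simp [huv, huv.symm]; omega
        · refine ⟨fun l => (if l = v then k else 0) + (if l = u then 1 else 0), ?_, ?_, ?_, ?_⟩
          · unfold Cf
            simp only [Nat.cast_add, add_smul, Finset.sum_add_distrib, Nat.cast_ite, Nat.cast_one, Nat.cast_zero, ite_smul,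
              one_smul, zero_smul, Finset.sum_ite_eq', hv, hu, if_true]
            exact h
          · simp; omega
          · simp
          · simp [huv, huv.symm]; omega
      have hs : ∑ l ∈ b.support, f l = f v + f u := by
        rw [h3, Finset.sum_pair huv.symm]
      refine key γ f hf hfv (by rw [hs]; omega) ?_
      intro j hj hjv h
      have hju : j = u := by
        rw [h3] at hj
        rcases Finset.mem_insert.1 hj with h | h
        · exact absurd h hjv
        · exact Finset.mem_singleton.1 h
      subst hju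
      obtain ⟨i, hi, hij, h4⟩ := ht' j hj hjv
      have hiv : i = v := by
        rw [h3] at hi
        rcases Finset.mem_insert.1 hi with h | h
        · exact h
        · exact absurd (Finset.mem_singleton.1 h) hij
      subst hiv
      have e1 := Cf.add (Cf.simple hv) (Cf.simple hj) h4
      rw [h] at e1
      have e2 := e1.unique hf hv
      have e3 := e1.unique hf hj
      simp [hjv, hjv.symm] at e2 e3
      omega
    by_cases hvu : P.pairingIn ℤ v u = -1
    · by_cases huv' : P.pairingIn ℤ u v = -1
      · right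
        refine ⟨v, hv, u, hu, huv.symm, fun l hl => ?_, hvu, huv'⟩
        rw [h3] at hl
        simpa using hl
      · left
        obtain ⟨k, hk⟩ : ∃ k : ℕ, -P.pairingIn ℤ u v = (k : ℤ) := Int.eq_ofNat_of_zero_le (by omega)
        refine hcase k (by omega) (P.reflectionPerm v u) (Or.inr ?_)
        rw [RootPairing.root_reflectionPerm, P.reflection_apply_root]
        have hkK : P.pairing u v = -(k : K) := by
          rw [← P.algebraMap_pairingIn ℤ]
          have h6 : ((-P.pairingIn ℤ u v : ℤ) : K) = ((k : ℤ) : K) := by rw [hk]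
          push_cast at h6
          rw [← h6, neg_neg]
          rfl
        rw [hkK, neg_smul, sub_neg_eq_add, add_comm]
    · left
      obtain ⟨k, hk⟩ : ∃ k : ℕ, -P.pairingIn ℤ v u = (k : ℤ) := Int.eq_ofNat_of_zero_le (by omega)
      refine hcase k (by omega) (P.reflectionPerm u v) (Or.inl ?_)
      rw [RootPairing.root_reflectionPerm, P.reflection_apply_root]
      have hkK : P.pairing v u = -(k : K) := by
        rw [← P.algebraMap_pairingIn ℤ]
        have h6 : ((-P.pairingIn ℤ v u : ℤ) : K) = ((k : ℤ) : K) := by rw [hk]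
        push_cast at h6
        rw [← h6, neg_neg]
        rfl
      rw [hkK, neg_smul, sub_neg_eq_add]
  · -- rank at least three
    left
    have hsub : ({v, u} : Finset ι) ⊆ b.support := by
      intro x hx
      rcases Finset.mem_insert.1 hx with rfl | hx
      · exact hv
      · rw [Finset.mem_singleton.1 hx]; exact hu
    obtain ⟨i, hi, w, hw, hwJ, hiw⟩ := exists_edge b hsub ⟨v, Finset.mem_insert_self _ _⟩ (Ne.symm h3)
    have hwv : w ≠ v := by rintro rfl; exact hwJ (Finset.mem_insert_self _ _)
    have hwu : w ≠ u := by rintro rfl; exact hwJ (Finset.mem_insert_of_mem (Finset.mem_singleton_self _))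
    have h4 : P.pairingIn ℤ β w < 0 := by
      have h5 : P.pairingIn ℤ β w = P.pairingIn ℤ v w + P.pairingIn ℤ u w := by
        have h6 : ((P.pairingIn ℤ β w : ℤ) : K) = ((P.pairingIn ℤ v w + P.pairingIn ℤ u w : ℤ) : K) := by
          have e : ∀ a c, ((P.pairingIn ℤ a c : ℤ) : K) = P.pairing a c := fun a c => P.algebraMap_pairingIn ℤ a c
          push_cast
          rw [e, e, e]
          simp only [← P.root_coroot_eq_pairing]
          rw [hβ, map_add, LinearMap.add_apply]
        exact_mod_cast h6
      have h7 := b.pairingIn_le_zero_of_ne (i := v) (j := w) hwv.symm hv hw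
      have h8 := b.pairingIn_le_zero_of_ne (i := u) (j := w) hwu.symm hu hw
      rcases Finset.mem_insert.1 hi with rfl | hi
      · omega
      · rw [Finset.mem_singleton.1 hi] at hiw
        omega
    obtain ⟨γ, hγ⟩ := exists_add b hβf hw h4
    have hγf := Cf.add hβf (Cf.simple hw) hγ
    refine key γ _ hγf (by simp [huv.symm, hwv.symm]) (by simp [Finset.sum_add_distrib, hv, hu, hw]) ?_
    intro j hj hjv h
    obtain ⟨i', hi', hij', h5⟩ := ht' j hj hjv
    have e1 := Cf.add (Cf.simple hi') (Cf.simple hj) h5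
    rw [h] at e1
    have e2 := Finset.sum_congr rfl fun l hl => e1.unique hγf (j := l) hl
    simp [Finset.sum_add_distrib, hi', hj, hv, hu, hw] at e2

end PX
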