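import Pool.Agent.Helper81.PX.Defs

/-!
Project PX (MP_b8862a_ag): the definitions for the bound `O(√X)`.
-/

set_option linter.unusedSectionVars false

open Module PF TF PW

namespace PX

/-- The arithmetic datum of Weyl's dimension formula: for every simple coroot `j` and every `k ≤ r` a coroot which is the
sum of `k` different simple ones, `j` among them; rank two: two different coroots which contain both simple ones, or equal
`b j`. -/
def Dt3 (M n : ℕ) : Prop := ∃ (r N : ℕ) (f : Fin N → Fin r → ℕ) (b : Fin r → ℕ),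
  2 ≤ r ∧ r ≤ M ∧ N ≤ M ∧ (∀ a j, f a j ≤ 4 * M) ∧ (∀ a, 0 < ∑ j, f a j) ∧ (∀ j, 0 < b j) ∧
  (∀ j k, 1 ≤ k → k ≤ r → ∃ a, f a j = 1 ∧ (∀ i, f a i ≤ 1) ∧ ∑ i, f a i = k) ∧
  (3 ≤ r ∨ (∃ a a', a ≠ a' ∧ (∀ j, 1 ≤ f a j) ∧ ∀ j, 1 ≤ f a' j) ∨ ∀ i j, b i = b j) ∧
  n * ∏ a, ∑ j, f a j = ∏ a, ∑ j, f a j * b j

section euclid

variable {E : Type*} [NormedAddCommGroup E] [InnerProductSpace ℝ E]

/-- The data `PW.Wd` with the finer arithmetic datum. -/
structure Wd3 (Φ X : Finset E) (n : ℕ) (l v : E) : Prop extends Wd Φ X n l v where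
  dt3 : ¬ TypeA Φ → Dt3 Φ.card n

end euclid

/-- The exceptional dimensions. -/
def Ex3 : Set ℕ := {n | ∃ (ι : Type) (_ : Fintype ι) (Φ X : Finset (EuclideanSpace ℝ ι)) (l v : EuclideanSpace ℝ ι),
  Wd3 Φ X n l v ∧ ¬ TypeA Φ ∧ ¬ TypeB Φ X ∧ ¬ TypeD Φ X}

end PX
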