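import Pool.Agent.Helper81.PX.Base
import Pool.Agent.Helper81.PX.Defs3

/-!
Project PX (MP_b8862a_ag): the roots which are sums of different simple ones.
-/

set_option linter.unusedSectionVars false

open Module PF PF.W PF.L PW

namespace PX

variable {ι K M N : Type*} [Field K] [CharZero K] [AddCommGroup M] [Module K M] [AddCommGroup N] [Module K N]
  [Fintype ι] {P : RootPairing ι K M N} [P.IsRootSystem] [P.IsCrystallographic] [P.IsReduced] [P.IsIrreducible]

/-- connected subsets -/
theorem exists_conn (b : P.Base) {v : ι} (hv : v ∈ b.support) : ∀ k, 1 ≤ k → k ≤ b.support.card →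
    ∃ J ⊆ b.support, J.card = k ∧ v ∈ J ∧ ∃ (γ : ι) (f : ι → ℕ), Cf b f γ ∧ (∀ l ∈ J, f l = 1) ∧ ∀ l, l ∉ J → f l = 0 := by
  classical
  intro k hk
  induction k, hk using Nat.le_induction with
  | base =>
    intro _
    refine ⟨{v}, Finset.singleton_subset_iff.2 hv, Finset.card_singleton _, Finset.mem_singleton_self _, v, _,
      Cf.simple hv, ?_, ?_⟩
    · intro l hl
      rw [if_pos (Finset.mem_singleton.1 hl)]
    · intro l hl
      rw [if_neg fun h => hl (Finset.mem_singleton.2 h)]
  | succ k hk ih =>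
    intro hk2
    obtain ⟨J, hJ, hc, hvJ, γ, f, hf, hf1, hf0⟩ := ih (by omega)
    obtain ⟨i, hi, j, hj, hjJ, hneg⟩ := exists_edge b hJ ⟨v, hvJ⟩ (by
      rintro rfl
      omega)
    have h4 : P.pairingIn ℤ γ j < 0 := by
      have h5 : P.pairingIn ℤ γ j = ∑ l ∈ J, P.pairingIn ℤ l j := by
        have h6 : ((P.pairingIn ℤ γ j : ℤ) : K) = ((∑ l ∈ J, P.pairingIn ℤ l j : ℤ) : K) := by
          have e : ∀ a c, ((P.pairingIn ℤ a c : ℤ) : K) = P.pairing a c := fun a c => P.algebraMap_pairingIn ℤ a c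
          push_cast
          rw [e]
          simp only [e]
          have hγ : P.root γ = ∑ l ∈ J, P.root l := by
            unfold Cf at hf
            rw [hf, ← Finset.sum_subset hJ (fun l _ hl => by rw [hf0 l hl, Nat.cast_zero, zero_smul])]
            exact Finset.sum_congr rfl fun l hl => by rw [hf1 l hl, Nat.cast_one, one_smul]
          simp only [← P.root_coroot_eq_pairing]
          rw [hγ, map_sum, LinearMap.sum_apply]
        exact_mod_cast h6
      rw [h5]
      refine Finset.sum_neg' (fun l hl => ?_) ⟨i, hi, hneg⟩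
      have hlj : l ≠ j := by rintro rfl; exact hjJ hl
      exact b.pairingIn_le_zero_of_ne hlj (hJ hl) hj
    obtain ⟨γ', hγ'⟩ := exists_add b hf hj h4
    refine ⟨insert j J, Finset.insert_subset hj hJ, by rw [Finset.card_insert_of_notMem hjJ, hc],
      Finset.mem_insert_of_mem hvJ, γ', _, Cf.add hf (Cf.simple hj) hγ', ?_, ?_⟩
    · intro l hl
      rcases Finset.mem_insert.1 hl with rfl | hl
      · rw [hf0 l hjJ, if_pos rfl]
      · have hlj : l ≠ j := fun h => hjJ (h ▸ hl)
        rw [hf1 l hl, if_neg hlj]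
    · intro l hl
      have h5 : l ≠ j := fun h => hl (h ▸ Finset.mem_insert_self _ _)
      rw [hf0 l fun h => hl (Finset.mem_insert_of_mem h), if_neg h5]

/-- rank two -/
theorem exists_two (b : P.Base) (h2 : b.support.card = 2) :
    (∃ (γ γ' : ι) (f f' : ι → ℕ), γ ≠ γ' ∧ Cf b f γ ∧ Cf b f' γ' ∧ (∀ l ∈ b.support, 1 ≤ f l) ∧
      ∀ l ∈ b.support, 1 ≤ f' l) ∨
    ∃ i ∈ b.support, ∃ j ∈ b.support, i ≠ j ∧ (∀ l ∈ b.support, l = i ∨ l = j) ∧ P.pairingIn ℤ i j = -1 ∧
      P.pairingIn ℤ j i = -1 := by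
  classical
  obtain ⟨v, hv⟩ : b.support.Nonempty := Finset.card_pos.1 (by omega)
  obtain ⟨u, hu, huv, hneg⟩ := exists_nb b (by omega) hv
  obtain ⟨β, hβ⟩ := exists_add b (Cf.simple hv) hu hneg
  have hβf := Cf.add (Cf.simple hv) (Cf.simple hu) hβ
  have hneg' : P.pairingIn ℤ u v < 0 := (P.pairingIn_lt_zero_iff ℤ).1 hneg
  have h3 : b.support = {v, u} := by
    symm
    refine Finset.eq_of_subset_of_card_le ?_ ?_
    · intro x hx
      rcases Finset.mem_insert.1 hx with rfl | hx
      · exact hv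
      · rw [Finset.mem_singleton.1 hx]; exact hu
    · rw [h2, Finset.card_pair huv.symm]
  have hsup : ∀ l ∈ b.support, l = v ∨ l = u := by
    intro l hl
    rw [h3] at hl
    simpa using hl
  have hβ1 : ∀ l ∈ b.support, 1 ≤ (if l = v then 1 else 0) + (if l = u then 1 else 0) := by
    intro l hl
    rcases hsup l hl with rfl | rfl
    · simp
    · simp
  have hcase : ∀ k : ℕ, 2 ≤ k → ∀ γ, (P.root γ = P.root v + (k : K) • P.root u ∨ P.root γ = (k : K) • P.root v + P.root u) →
      ∃ (γ γ' : ι) (f f' : ι → ℕ), γ ≠ γ' ∧ Cf b f γ ∧ Cf b f' γ' ∧ (∀ l ∈ b.support, 1 ≤ f l) ∧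
      ∀ l ∈ b.support, 1 ≤ f' l := by
    intro k hk γ hγ
    obtain ⟨f, hf, hfv, hfu, hfs⟩ : ∃ f : ι → ℕ, Cf b f γ ∧ 1 ≤ f v ∧ 1 ≤ f u ∧ 3 ≤ f v + f u := by
      rcases hγ with h | h
      · refine ⟨fun l => (if l = v then 1 else 0) + (if l = u then k else 0), ?_, ?_, ?_, ?_⟩
        · unfold Cf
          simp only [Nat.cast_add, add_smul, Finset.sum_add_distrib, Nat.cast_ite, Nat.cast_one, Nat.cast_zero, ite_smul,
            one_smul, zero_smul, Finset.sum_ite_eq', hv, hu, if_true]
          exact h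
        · simp
        · simp [huv]; omega
        · simp [huv, huv.symm]; omega
      · refine ⟨fun l => (if l = v then k else 0) + (if l = u then 1 else 0), ?_, ?_, ?_, ?_⟩
        · unfold Cf
          simp only [Nat.cast_add, add_smul, Finset.sum_add_distrib, Nat.cast_ite, Nat.cast_one, Nat.cast_zero, ite_smul,
            one_smul, zero_smul, Finset.sum_ite_eq', hv, hu, if_true]
          exact h
        · simp; omega
        · simp
        · simp [huv, huv.symm]; omega
    refine ⟨β, γ, _, f, ?_, hβf, hf, hβ1, ?_⟩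
    · intro h
      rw [h] at hβf
      have e2 := hβf.unique hf hv
      have e3 := hβf.unique hf hu
      simp [huv, huv.symm] at e2 e3
      omega
    · intro l hl
      rcases hsup l hl with rfl | rfl
      · exact hfv
      · exact hfu
  by_cases hvu : P.pairingIn ℤ v u = -1
  · by_cases huv' : P.pairingIn ℤ u v = -1
    · right
      exact ⟨v, hv, u, hu, huv.symm, hsup, hvu, huv'⟩
    · left
      obtain ⟨k, hk⟩ : ∃ k : ℕ, -P.pairingIn ℤ u v = (k : ℤ) := Int.eq_ofNat_of_zero_le (by omega)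
      refine hcase k (by omega) (P.reflectionPerm v u) (Or.inr ?_)
      rw [RootPairing.root_reflectionPerm, P.reflection_apply_root]
      have hkK : P.pairing u v = -(k : K) := by
        rw [← P.algebraMap_pairingIn ℤ]
        have h6 : ((-P.pairingIn ℤ u v : ℤ) : K) = ((k : ℤ) : K) := by rw [hk]
        push_cast at h6
        rw [← h6, neg_neg]
        rfl
      rw [hkK, neg_smul, sub_neg_eq_add, add_comm]
  · left
    obtain ⟨k, hk⟩ : ∃ k : ℕ, -P.pairingIn ℤ v u = (k : ℤ) := Int.eq_ofNat_of_zero_le (by omega)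
    refine hcase k (by omega) (P.reflectionPerm u v) (Or.inl ?_)
    rw [RootPairing.root_reflectionPerm, P.reflection_apply_root]
    have hkK : P.pairing v u = -(k : K) := by
      rw [← P.algebraMap_pairingIn ℤ]
      have h6 : ((-P.pairingIn ℤ v u : ℤ) : K) = ((k : ℤ) : K) := by rw [hk]
      push_cast at h6
      rw [← h6, neg_neg]
      rfl
    rw [hkK, neg_smul, sub_neg_eq_add]

end PX
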